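import Pool.Agent.H49Bk.Bk3

/-!
# Package Bk4: `O(log N)` iterates, for every linear map

`K = sqrt (lg N + 2) + 1`, so `lg N + 3 ≤ K ^ 2 ≤ 4 (lg N + 2)`, `2 ≤ K ≤ N + 2` and
`K ^ K ≤ 2 ^ (K ^ 2) ≤ (4 (N + 1)) ^ 4 ≤ (lg B' + 1) ^ 8`, `B' = B ^ 2 * m ^ 2`
(`m ^ (N + K) ≤ m ^ (2 N + 2) ≤ B'`). `T₁ z = T^[K] (z % m ^ N)` is in
`DFun (n + 1)` by `iter_block` (with `n + 1` variables), linear (the power of `A`), and
`T^[i] x = T₁^[i / K] (T^[i % K] x)`, `i / K ≤ K`.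
-/

set_option autoImplicit false

namespace Pool.Agent.H49Bk

open Finset Pool.Agent.Grz Pool.Agent.GAvg Pool.Agent.PTr Pool.Agent.MTr
open Pool.Agent.LPC Pool.Agent.ECD Pool.Agent.LinU

/-- the number of the blocks -/
def kk (N : ℕ) : ℕ := Nat.sqrt (lg N + 2) + 1

theorem two_le_kk (N : ℕ) : 2 ≤ kk N := by
  unfold kk
  have h : 1 ≤ Nat.sqrt (lg N + 2) := Nat.le_sqrt.2 (by omega)
  omega

theorem kk_sq (N : ℕ) : lg N + 3 ≤ kk N * kk N := by
  unfold kk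
  have h := Nat.lt_succ_sqrt (lg N + 2)
  simp only [Nat.succ_eq_add_one] at h
  omega

theorem kk_le (N : ℕ) : kk N ≤ N + 2 := by
  unfold kk
  have h1 : lg N ≤ N := Nat.log_le_self _ _
  have h2 : Nat.sqrt (lg N + 2) < N + 2 := Nat.sqrt_lt.2 (by nlinarith)
  omega

theorem kk_sq_le (N : ℕ) : kk N * kk N ≤ 4 * (lg N + 2) := by
  unfold kk
  have h1 : 1 ≤ Nat.sqrt (lg N + 2) := Nat.le_sqrt.2 (by omega)
  have h2 := Nat.sqrt_le (lg N + 2)
  nlinarith

theorem kk_pow (N : ℕ) : kk N ^ kk N ≤ (4 * (N + 1)) ^ 4 := by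
  have h1 : kk N ^ kk N ≤ 2 ^ (kk N * kk N) := by
    rw [pow_mul]
    exact Nat.pow_le_pow_left Nat.lt_two_pow_self.le _
  have h2 : 2 ^ (kk N * kk N) ≤ 2 ^ (4 * (lg N + 2)) :=
    Nat.pow_le_pow_right (by norm_num) (kk_sq_le N)
  have h3 : 2 ^ (lg N + 2) ≤ 4 * (N + 1) := by
    have h4 : 2 ^ lg N ≤ N + 1 := by
      rcases Nat.eq_zero_or_pos N with h | h
      · subst h
        simp [lg]
      · exact (lg_pow_ge N h).trans (Nat.le_succ _)
    rw [pow_add]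
    omega
  refine (h1.trans h2).trans ?_
  rw [mul_comm 4, pow_mul]
  exact Nat.pow_le_pow_left h3 4

theorem kk_def {n : ℕ} {N : (Fin n → ℕ) → ℕ} (hN : DFun n N) : DFun n (fun v => kk (N v)) := by
  have hS : DFun n (fun v => lg (N v) + 2) := (DFun.lg hN).add (DFun.const 2)
  have h0 : DFun (n + 1) (fun w => w 0) := DFun.proj 0
  have h1 : DFun n (fun v => Nat.sqrt (lg (N v) + 2)) := by
    refine DFun.ofGraph hS (fun v => Nat.sqrt_le_self _) ?_
    refine ((Delta0.leFun (h0.mul h0) hS.weak).and (Delta0.ltFun hS.weak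
      ((h0.add (DFun.const 1)).mul (h0.add (DFun.const 1))))).of_iff fun w => ?_
    constructor
    · intro h
      rw [h]
      exact ⟨Nat.sqrt_le _, Nat.lt_succ_sqrt _⟩
    · rintro ⟨h2, h3⟩
      exact Nat.eq_sqrt.2 ⟨h2, h3⟩
  exact h1.add (DFun.const 1)

theorem iter_lt {m N : ℕ} {T : ℕ → ℕ} (hTb : ∀ z, z < m ^ N → T z < m ^ N) {z : ℕ}
    (hz : z < m ^ N) (k : ℕ) : T^[k] z < m ^ N := by
  induction k with
  | zero => exact hz
  | succ k ih =>
    rw [Function.iterate_succ_apply']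
    exact hTb _ ih

theorem vecOf_iter {m N : ℕ} {T : ℕ → ℕ} (hTb : ∀ z, z < m ^ N → T z < m ^ N)
    {A : Module.End (ZMod m) (Fin N → ZMod m)}
    (hA : ∀ z, z < m ^ N → vecOf m N (T z) = A (vecOf m N z)) {z : ℕ} (hz : z < m ^ N) (k : ℕ) :
    vecOf m N (T^[k] z) = (A ^ k) (vecOf m N z) := by
  induction k with
  | zero => rfl
  | succ k ih =>
    rw [Function.iterate_succ_apply', hA _ (iter_lt hTb hz k), ih, pow_succ', Module.End.mul_apply]

theorem iter_mod {m N K : ℕ} {T : ℕ → ℕ} (hTb : ∀ z, z < m ^ N → T z < m ^ N) {y : ℕ}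
    (hy : y < m ^ N) (q : ℕ) : (fun z => T^[K] (z % m ^ N))^[q] y = T^[K * q] y := by
  induction q with
  | zero => rfl
  | succ q ih =>
    rw [Function.iterate_succ_apply', ih, Nat.mod_eq_of_lt (iter_lt hTb hy _),
      ← Function.iterate_add_apply, Nat.mul_succ, Nat.add_comm K]

theorem pow_small {n : ℕ} {m N B x i : (Fin n → ℕ) → ℕ} {T : ℕ → (Fin n → ℕ) → ℕ}
    (hm : DFun n m) (hN : DFun n N) (hB : DFun n B) (hx : DFun n x) (hi : DFun n i)
    (hT : DFun (n + 1) (fun w => T (w 0) (fun i => w i.succ))) (h2 : ∀ v, 2 ≤ m v)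
    (hmN : ∀ v, m v ^ N v ≤ B v) (hil : ∀ v, i v ≤ lg (N v) + 3)
    (hTb : ∀ v z, z < m v ^ N v → T z v < m v ^ N v)
    (hlin : ∀ v, ∃ A : Module.End (ZMod (m v)) (Fin (N v) → ZMod (m v)), ∀ z, z < m v ^ N v →
      vecOf (m v) (N v) (T z v) = A (vecOf (m v) (N v) z))
    (hxb : ∀ v, x v < m v ^ N v) : DFun n (fun v => (fun z => T z v)^[i v] (x v)) := by
  have hpos : ∀ v, 0 < m v ^ N v := fun v => pow_pos (by have := h2 v; omega) _
  have hK : DFun n (fun v => kk (N v)) := kk_def hN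
  have hK0 : ∀ v, 0 < kk (N v) := fun v => by have := two_le_kk (N v); omega
  have hB' : DFun n (fun v => B v ^ 2 * m v ^ 2) := by
    have h3 := (hB.mul hB).mul (hm.mul hm)
    refine cast (congrArg (DFun n) ?_) h3
    funext v
    ring
  have hNK : ∀ v, m v ^ (N v + kk (N v)) ≤ B v ^ 2 * m v ^ 2 := by
    intro v
    have h3 : N v + kk (N v) ≤ N v * 2 + 2 := by
      have := kk_le (N v)
      omega
    calc m v ^ (N v + kk (N v)) ≤ m v ^ (N v * 2 + 2) :=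
          Nat.pow_le_pow_right (by have := h2 v; omega) h3
      _ = (m v ^ N v) ^ 2 * m v ^ 2 := by rw [pow_add, pow_mul]
      _ ≤ B v ^ 2 * m v ^ 2 := Nat.mul_le_mul_right _ (Nat.pow_le_pow_left (hmN v) 2)
  have hKK : ∀ v, kk (N v) ^ kk (N v) ≤ (lg (B v ^ 2 * m v ^ 2) + 1) ^ 8 := by
    intro v
    have h3 : 2 ^ (N v * 2 + 2) ≤ B v ^ 2 * m v ^ 2 := by
      calc 2 ^ (N v * 2 + 2) ≤ m v ^ (N v * 2 + 2) := Nat.pow_le_pow_left (h2 v) _
        _ = (m v ^ N v) ^ 2 * m v ^ 2 := by rw [pow_add, pow_mul]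
        _ ≤ B v ^ 2 * m v ^ 2 := Nat.mul_le_mul_right _ (Nat.pow_le_pow_left (hmN v) 2)
    have h4 : N v * 2 + 2 ≤ lg (B v ^ 2 * m v ^ 2) :=
      Nat.le_log_of_pow_le (by norm_num) h3
    have h5 : 4 * (N v + 1) ≤ (lg (B v ^ 2 * m v ^ 2) + 1) ^ 2 := by
      nlinarith
    calc kk (N v) ^ kk (N v) ≤ (4 * (N v + 1)) ^ 4 := kk_pow _
      _ ≤ ((lg (B v ^ 2 * m v ^ 2) + 1) ^ 2) ^ 4 := Nat.pow_le_pow_left h5 4
      _ = (lg (B v ^ 2 * m v ^ 2) + 1) ^ 8 := by rw [← pow_mul]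
  -- the first steps
  have hy : DFun n (fun v => (fun z => T z v)^[i v % kk (N v)] (x v)) :=
    iter_block 8 hm hN hK hB' hx (DFun.modAny hi hK) hT h2 (fun v => two_le_kk _) hNK hKK
      (fun v => (Nat.mod_lt _ (hK0 v)).le) hTb hlin hxb
  -- the power
  obtain ⟨T1, eT1⟩ : ∃ T1 : ℕ → (Fin n → ℕ) → ℕ,
      T1 = fun z v => (fun z => T z v)^[kk (N v)] (z % m v ^ N v) := ⟨_, rfl⟩
  have hmNd : DFun n (fun v => m v ^ N v) := dfun_powLe hm hN hB hmN
  have hT1 : DFun (n + 1) (fun w => T1 (w 0) (fun i => w i.succ)) := by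
    rw [eT1]
    exact iter_block 8 (n := n + 1) (m := fun w => m fun i => w i.succ)
      (N := fun w => N fun i => w i.succ) (K := fun w => kk (N fun i => w i.succ))
      (B := fun w => B (fun i => w i.succ) ^ 2 * m (fun i => w i.succ) ^ 2)
      (x := fun w => w 0 % m (fun i => w i.succ) ^ N (fun i => w i.succ))
      (j := fun w => kk (N fun i => w i.succ)) (T := fun z w => T z fun i => w i.succ)
      hm.weak hN.weak hK.weak hB'.weak (DFun.modAny (DFun.proj 0) hmNd.weak) hK.weak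
      (DFun.app hT (DFun.proj 0) fun i => DFun.proj i.succ.succ) (fun w => h2 _)
      (fun w => two_le_kk _) (fun w => hNK _) (fun w => hKK _) (fun w => le_rfl)
      (fun w z hz => hTb _ z hz) (fun w => hlin _) (fun w => Nat.mod_lt _ (hpos _))
  have hiK : ∀ v, i v / kk (N v) ≤ kk (N v) := by
    intro v
    have h3 := hil v
    have h4 := kk_sq (N v)
    exact Nat.div_le_of_le_mul (h3.trans h4)
  have hfin : DFun n (fun v => (fun z => T1 z v)^[i v / kk (N v)]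
      ((fun z => T z v)^[i v % kk (N v)] (x v))) := by
    refine iter_block 8 hm hN hK hB' hy (DFun.divPos hi hK hK0) hT1 h2 (fun v => two_le_kk _) hNK
      hKK hiK (fun v z hz => ?_) (fun v => ?_) (fun v => iter_lt (hTb v) (hxb v) _)
    · rw [eT1]
      exact iter_lt (hTb v) (Nat.mod_lt _ (hpos v)) _
    · obtain ⟨A, hA⟩ := hlin v
      refine ⟨A ^ kk (N v), fun z hz => ?_⟩
      rw [eT1]
      show vecOf (m v) (N v) ((fun z => T z v)^[kk (N v)] (z % m v ^ N v)) = _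
      rw [Nat.mod_eq_of_lt hz]
      exact vecOf_iter (hTb v) hA hz _
  refine cast (congrArg (DFun n) ?_) hfin
  funext v
  rw [eT1]
  show (fun z => (fun z => T z v)^[kk (N v)] (z % m v ^ N v))^[i v / kk (N v)]
    ((fun z => T z v)^[i v % kk (N v)] (x v)) = _
  rw [iter_mod (hTb v) (iter_lt (hTb v) (hxb v) _), ← Function.iterate_add_apply, Nat.div_add_mod]

end Pool.Agent.H49Bk
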