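import Pool.Agent.H49Bk.Def

/-!
# Package Bk1: the sum over the block sequences (pure)

`∑ s < K, vecOf (eb s (rb s z)) = vecOf z` for `z < m ^ N`, `N ≤ K * M` (each digit `i < N` is in exactly
one block `s = i / M`; if `M = 0` then `N = 0`). Induction on `j`: `σ < K ^ (j + 1)` is `σ' + s * K ^ j` with
`σ' < K ^ j`, `s < K`, `WW σ j = WW σ' j` (only the digits `i < j` of `σ` are used), `dg K σ j = s`; then
use that `A` is linear.
-/

set_option autoImplicit false

namespace Pool.Agent.H49Bk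

open Finset Pool.Agent.LinU

/-- the vector `A P_(σ_(i-1)) ⋯ A P_(σ_0) u`, `σ_i` the digits of `σ` to the base `K` -/
def WV {V : Type*} (A : V → V) (P : ℕ → V → V) (K σ : ℕ) (u : V) : ℕ → V
  | 0 => u
  | i + 1 => A (P (σ / K ^ i % K) (WV A P K σ u i))

theorem WV_congr {V : Type*} (A : V → V) (P : ℕ → V → V) {K : ℕ} (hK : 0 < K) (σ τ : ℕ) (u : V)
    {j : ℕ} (hσ : σ < K ^ j) : ∀ i ≤ j, WV A P K (σ + K ^ j * τ) u i = WV A P K σ u i := by
  intro i
  induction i with
  | zero => exact fun _ => rfl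
  | succ i ih =>
    intro hi
    rw [WV, WV, ih (by omega)]
    have h1 : (σ + K ^ j * τ) / K ^ i % K = σ / K ^ i % K := by
      obtain ⟨d, rfl⟩ := Nat.exists_eq_add_of_lt (show i < j by omega)
      have h2 : K ^ (i + d + 1) * τ = (K ^ d * τ * K) * K ^ i := by
        rw [pow_add, pow_add]
        ring
      rw [h2, Nat.add_mul_div_right _ _ (pow_pos hK i), Nat.add_mul_mod_self_right]
    rw [h1]

theorem iter_eq_sum {V : Type*} [AddCommMonoid V] (A : V →+ V) (P : ℕ → V → V) {K : ℕ}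
    (hK : 0 < K) (hP : ∀ u, ∑ s ∈ range K, P s u = u) (u : V) (j : ℕ) :
    A^[j] u = ∑ σ ∈ range (K ^ j), WV A P K σ u j := by
  induction j with
  | zero => simp [WV]
  | succ j ih =>
    have h1 : ∑ σ ∈ range (K ^ (j + 1)), WV A P K σ u (j + 1) =
        ∑ p ∈ range (K ^ j) ×ˢ range K, WV A P K (p.1 + K ^ j * p.2) u (j + 1) := by
      refine Finset.sum_bij' (fun σ _ => (σ % K ^ j, σ / K ^ j)) (fun p _ => p.1 + K ^ j * p.2)
        ?_ ?_ ?_ ?_ ?_
      · intro σ hσ
        rw [mem_product, mem_range, mem_range]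
        refine ⟨Nat.mod_lt _ (pow_pos hK j), ?_⟩
        rw [Nat.div_lt_iff_lt_mul (pow_pos hK j)]
        have := mem_range.1 hσ
        rw [pow_succ] at this
        linarith
      · rintro ⟨a, b⟩ hp
        rw [mem_product, mem_range, mem_range] at hp
        rw [mem_range, pow_succ]
        have h3 : K ^ j * b + K ^ j ≤ K ^ j * K := by
          rw [← Nat.mul_succ]
          exact Nat.mul_le_mul_left _ hp.2
        have := hp.1
        simp only at this ⊢
        omega
      · intro σ _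
        exact Nat.mod_add_div _ _
      · rintro ⟨a, b⟩ hp
        rw [mem_product, mem_range, mem_range] at hp
        have h3 := pow_pos hK j
        refine Prod.ext ?_ ?_
        · show (a + K ^ j * b) % K ^ j = a
          rw [Nat.add_mul_mod_self_left, Nat.mod_eq_of_lt hp.1]
        · show (a + K ^ j * b) / K ^ j = b
          rw [Nat.add_mul_div_left _ _ h3, Nat.div_eq_of_lt hp.1, zero_add]
      · intro σ _
        show _ = WV A P K (σ % K ^ j + K ^ j * (σ / K ^ j)) u (j + 1)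
        rw [Nat.mod_add_div]
    rw [h1, Finset.sum_product, Function.iterate_succ_apply', ih, map_sum]
    refine Finset.sum_congr rfl fun σ hσ => ?_
    have hσ' := mem_range.1 hσ
    have h4 : ∀ τ ∈ range K, WV A P K (σ + K ^ j * τ) u (j + 1) = A (P τ (WV A P K σ u j)) := by
      intro τ hτ
      rw [WV, WV_congr A P hK σ τ u hσ' j le_rfl, Nat.add_mul_div_left _ _ (pow_pos hK j),
        Nat.div_eq_of_lt hσ', zero_add, Nat.mod_eq_of_lt (mem_range.1 hτ)]
    rw [Finset.sum_congr rfl h4, ← map_sum, hP]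

/-- the projection to the block `s` -/
def PV (m N M s : ℕ) (u : Fin N → ZMod m) : Fin N → ZMod m := fun i =>
  if (i : ℕ) / M = s then u i else 0

theorem sum_PV {m N M K : ℕ} (hKM : N ≤ K * M) (u : Fin N → ZMod m) :
    ∑ s ∈ range K, PV m N M s u = u := by
  funext i
  rw [Finset.sum_apply]
  unfold PV
  rw [Finset.sum_ite_eq (range K) ((i : ℕ) / M) (fun _ => u i), if_pos]
  rw [mem_range]
  have hi := i.2
  rcases Nat.eq_zero_or_pos M with rfl | hM
  · rw [Nat.mul_zero] at hKM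
    omega
  · rw [Nat.div_lt_iff_lt_mul hM]
    omega

theorem dg_eb_rb {m N M s z i : ℕ} (hm : 2 ≤ m) (hi : i < N) (hM : 0 < M) :
    dg m (eb m N M s (rb m M s z)) i = if i / M = s then dg m z i else 0 := by
  have h0 : 0 < m := by omega
  have hmod : ∀ x, dg m (x % m ^ N) i = dg m x i := by
    intro x
    unfold dg
    obtain ⟨d, rfl⟩ := Nat.exists_eq_add_of_lt hi
    rw [show i + d + 1 = i + (d + 1) by omega, pow_add, Nat.mod_mul_right_div_self, pow_succ',
      Nat.mod_mul_right_mod]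
  unfold eb rb
  rw [hmod]
  unfold dg
  rcases lt_or_ge i (s * M) with h1 | h1
  · have h2 : i / M ≠ s := by
      intro h
      have := (Nat.div_lt_iff_lt_mul hM).2 h1
      omega
    rw [if_neg h2]
    obtain ⟨d, hd⟩ := Nat.exists_eq_add_of_lt h1
    rw [hd, show i + d + 1 = (d + 1) + i by omega, pow_add, ← Nat.mul_assoc,
      Nat.mul_div_cancel _ (pow_pos h0 i), pow_succ, ← Nat.mul_assoc, Nat.mul_mod_left]
  · obtain ⟨d, rfl⟩ := Nat.exists_eq_add_of_le h1
    have h2 : (s * M + d) / M = s + d / M := by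
      rw [Nat.mul_comm s M, Nat.mul_add_div hM]
    rw [h2, pow_add, ← Nat.div_div_eq_div_mul, Nat.mul_div_cancel _ (pow_pos h0 _)]
    rcases lt_or_ge d M with h3 | h3
    · rw [Nat.div_eq_of_lt h3, Nat.add_zero, if_pos rfl]
      obtain ⟨c, rfl⟩ := Nat.exists_eq_add_of_lt h3
      rw [show d + c + 1 = d + (c + 1) by omega, pow_add m d (c + 1),
        Nat.mod_mul_right_div_self, pow_succ' m c, Nat.mod_mul_right_mod,
        ← Nat.div_div_eq_div_mul]
    · have h4 : ¬ s + d / M = s := by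
        have := Nat.div_pos h3 hM
        omega
      rw [if_neg h4]
      have h5 : z / m ^ (s * M) % m ^ M < m ^ d :=
        lt_of_lt_of_le (Nat.mod_lt _ (pow_pos h0 M)) (Nat.pow_le_pow_right h0 h3)
      rw [Nat.div_eq_of_lt h5, Nat.zero_mod]

theorem vecOf_eb_rb {m N M s z : ℕ} (hm : 2 ≤ m) (hM : N = 0 ∨ 0 < M) :
    vecOf m N (eb m N M s (rb m M s z)) = PV m N M s (vecOf m N z) := by
  funext i
  rcases hM with rfl | hM
  · exact i.elim0
  · unfold vecOf PV
    rw [dg_eb_rb hm i.2 hM]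
    split_ifs
    · rfl
    · exact Nat.cast_zero

theorem WW_lt {m N M K : ℕ} {T : ℕ → ℕ} (hm : 2 ≤ m) (hTb : ∀ z, z < m ^ N → T z < m ^ N)
    {u : ℕ} (hu : u < m ^ N) (σ j : ℕ) : WW m N M K T σ u j < m ^ N := by
  cases j with
  | zero => exact hu
  | succ j => exact hTb _ (Nat.mod_lt _ (pow_pos (by omega) N))

theorem vecOf_WW {m N M K : ℕ} {T : ℕ → ℕ} (hm : 2 ≤ m) (hM : N = 0 ∨ 0 < M)
    {A : Module.End (ZMod m) (Fin N → ZMod m)}
    (hA : ∀ z, z < m ^ N → vecOf m N (T z) = A (vecOf m N z)) (u σ j : ℕ) :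
    vecOf m N (WW m N M K T σ u j) = WV A (PV m N M) K σ (vecOf m N u) j := by
  induction j with
  | zero => rfl
  | succ j ih =>
    have h1 : eb m N M (dg K σ j) (rb m M (dg K σ j) (WW m N M K T σ u j)) < m ^ N :=
      Nat.mod_lt _ (pow_pos (by omega) N)
    show vecOf m N (T (eb m N M (dg K σ j) (rb m M (dg K σ j) (WW m N M K T σ u j)))) = _
    rw [hA _ h1, vecOf_eb_rb hm hM, ih]
    rfl

theorem sum_WW {m N M K : ℕ} {T : ℕ → ℕ} (hm : 2 ≤ m) (hK : 1 ≤ K) (hKM : N ≤ K * M)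
    {A : Module.End (ZMod m) (Fin N → ZMod m)} (hTb : ∀ z, z < m ^ N → T z < m ^ N)
    (hA : ∀ z, z < m ^ N → vecOf m N (T z) = A (vecOf m N z)) {u : ℕ} (hu : u < m ^ N) (j : ℕ) :
    ∑ σ ∈ range (K ^ j), vecOf m N (WW m N M K T σ u j) = (A ^ j) (vecOf m N u) := by
  have hM : N = 0 ∨ 0 < M := by
    rcases Nat.eq_zero_or_pos M with rfl | hM
    · exact Or.inl (by omega)
    · exact Or.inr hM
  rw [Module.End.pow_apply]
  have h := iter_eq_sum A.toAddMonoidHom (PV m N M) hK (sum_PV hKM) (vecOf m N u) j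
  exact (Finset.sum_congr rfl fun σ _ => vecOf_WW hm hM hA u σ j).trans h.symm

theorem dg_iter {m N M K : ℕ} {T : ℕ → ℕ} (hm : 2 ≤ m) (hK : 1 ≤ K) (hKM : N ≤ K * M)
    {A : Module.End (ZMod m) (Fin N → ZMod m)} (hTb : ∀ z, z < m ^ N → T z < m ^ N)
    (hA : ∀ z, z < m ^ N → vecOf m N (T z) = A (vecOf m N z)) {u : ℕ} (hu : u < m ^ N) (j : ℕ)
    {i : ℕ} (hi : i < N) :
    dg m (T^[j] u) i = (∑ σ ∈ range (K ^ j), dg m (WW m N M K T σ u j) i) % m := by
  have h1 : ∀ j, T^[j] u < m ^ N ∧ vecOf m N (T^[j] u) = (A ^ j) (vecOf m N u) := by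
    intro j
    induction j with
    | zero => exact ⟨hu, rfl⟩
    | succ j ih =>
      rw [Function.iterate_succ_apply']
      refine ⟨hTb _ ih.1, ?_⟩
      rw [hA _ ih.1, ih.2, pow_succ']
      rfl
  have h2 := (h1 j).2.trans (sum_WW hm hK hKM hTb hA hu j).symm
  have h3 := congrFun h2 ⟨i, hi⟩
  rw [Finset.sum_apply] at h3
  have h4 : ((dg m (T^[j] u) i : ℕ) : ZMod m) =
      ((∑ σ ∈ range (K ^ j), dg m (WW m N M K T σ u j) i : ℕ) : ZMod m) := by
    rw [Nat.cast_sum]
    exact h3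
  rw [ZMod.natCast_eq_natCast_iff'] at h4
  rw [← h4]
  exact (Nat.mod_eq_of_lt (Nat.mod_lt _ (by omega))).symm

end Pool.Agent.H49Bk
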