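import Pool.Agent.H49Bk.Def
import Pool.Agent.PTr.Orbit2

/-!
# Package Bk2: one block sequence is definable

`y = WW σ x j` iff `j = 0` and `y = x`, or `j > 0` and there is `c < m ^ (M * K) ≤ B` such that for all
`i < j`: `dg (m ^ M) c i = rb (dg K σ i) w_i`, `w_0 = x`, `w_i = T (eb (dg K σ (i-1)) (dg (m ^ M) c (i-1)))`
for `i > 0`, and `y = T (eb (dg K σ (j-1)) (dg (m ^ M) c (j-1)))`. (`c = ∑ i < j, rb (..) (WW i) (m ^ M) ^ i`.)
`m ^ (s * M) ≤ m ^ (K * M) ≤ B` for `s < K` (`dfun_powLe`, take `min`), `m ^ M ≥ 2`. Bounded by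
`max x (m ^ N) ≤ x + B`: `WW < m ^ N` as `T` maps `[0, m ^ N)` to itself (`eb < m ^ N`). ∎
-/

set_option autoImplicit false

namespace Pool.Agent.H49Bk

open Finset Pool.Agent.Grz Pool.Agent.GAvg Pool.Agent.PTr Pool.Agent.MTr
open Pool.Agent.LPC Pool.Agent.ECD Pool.Agent.LinU

/-- the point number `i` of the chain coded by `c` -/
private def nxt (m N M K : ℕ) (T : ℕ → ℕ) (σ x c i : ℕ) : ℕ :=
  if i = 0 then x else T (eb m N M (dg K σ (i - 1)) (dg (m ^ M) c (i - 1)))

private theorem nxt_eq {m N M K : ℕ} {T : ℕ → ℕ} {σ x c j : ℕ}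
    (h : ∀ i, i < j → dg (m ^ M) c i = rb m M (dg K σ i) (nxt m N M K T σ x c i)) :
    ∀ i, i ≤ j → nxt m N M K T σ x c i = WW m N M K T σ x i := by
  intro i
  induction i with
  | zero => intro _; rfl
  | succ i ih =>
    intro hi
    show T (eb m N M (dg K σ i) (dg (m ^ M) c i)) = _
    rw [h i (by omega), ih (by omega)]
    rfl

private theorem exists_chain {m N M K : ℕ} {T : ℕ → ℕ} (hm : 2 ≤ m) (σ x j : ℕ) :
    ∃ c, c < (m ^ M) ^ j ∧
      ∀ i, i < j → dg (m ^ M) c i = rb m M (dg K σ i) (nxt m N M K T σ x c i) := by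
  have hp : 0 < m ^ M := pow_pos (by omega) _
  obtain ⟨g, hg⟩ : ∃ g : ℕ → ℕ, g = fun i => rb m M (dg K σ i) (WW m N M K T σ x i) := ⟨_, rfl⟩
  have hgl : ∀ i, g i < m ^ M := fun i => by
    rw [hg]
    exact Nat.mod_lt _ hp
  refine ⟨∑ i ∈ range j, g i * (m ^ M) ^ i, lt_code hp g fun i _ => hgl i, ?_⟩
  have hd : ∀ i, i < j → dg (m ^ M) (∑ i ∈ range j, g i * (m ^ M) ^ i) i = g i := fun i hi =>
    dg_code hp g (fun i _ => hgl i) hi
  -- the points
  have hn : ∀ i, i ≤ j → nxt m N M K T σ x (∑ i ∈ range j, g i * (m ^ M) ^ i) i =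
      WW m N M K T σ x i := by
    intro i
    induction i with
    | zero => intro _; rfl
    | succ i ih =>
      intro hi
      show T (eb m N M (dg K σ i) (dg (m ^ M) _ i)) = _
      rw [hd i (by omega), hg]
      rfl
  intro i hi
  rw [hd i hi, hn i hi.le, hg]

private theorem WW_lt' {m N M K : ℕ} {T : ℕ → ℕ} (hm : 2 ≤ m)
    (hTb : ∀ z, z < m ^ N → T z < m ^ N) {u : ℕ} (hu : u < m ^ N) (σ j : ℕ) :
    WW m N M K T σ u j < m ^ N := by
  cases j with
  | zero => exact hu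
  | succ j => exact hTb _ (Nat.mod_lt _ (pow_pos (by omega) _))

private theorem Bk2_pow {l : ℕ} {m M K B s : (Fin l → ℕ) → ℕ} (hm : DFun l m) (hM : DFun l M)
    (hB : DFun l B) (hs : DFun l s) (h2 : ∀ v, 2 ≤ m v)
    (hMK : ∀ v, m v ^ (M v * K v) ≤ B v) (hsK : ∀ v, s v ≤ K v) :
    DFun l (fun v => m v ^ (s v * M v)) := by
  refine dfun_powLe hm (hs.mul hM) hB fun v => ?_
  refine (Nat.pow_le_pow_right (by have := h2 v; omega) ?_).trans (hMK v)
  rw [mul_comm (M v)]
  exact Nat.mul_le_mul_right _ (hsK v)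

private theorem Bk2_nxt {n l : ℕ} {T : ℕ → (Fin n → ℕ) → ℕ}
    (hT : DFun (n + 1) (fun w => T (w 0) (fun i => w i.succ)))
    {τ : Fin n → (Fin l → ℕ) → ℕ} (hτ : ∀ k, DFun l (τ k))
    {m N M K B x σ c i : (Fin l → ℕ) → ℕ} (hm : DFun l m) (hN : DFun l N) (hM : DFun l M)
    (hK : DFun l K) (hB : DFun l B) (hx : DFun l x) (hσ : DFun l σ) (hc : DFun l c)
    (hi : DFun l i) (h2 : ∀ v, 2 ≤ m v) (hK2 : ∀ v, 2 ≤ K v) (hM1 : ∀ v, 1 ≤ M v)
    (hMK : ∀ v, m v ^ (M v * K v) ≤ B v) (hmN : ∀ v, m v ^ N v ≤ B v) :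
    DFun l (fun v => nxt (m v) (N v) (M v) (K v) (fun z => T z (fun k => τ k v)) (σ v) (x v)
      (c v) (i v)) := by
  have hi1 := hi.sub (DFun.const 1)
  have hs := dfun_dg hK hσ hi1 hK2
  have hp : DFun l (fun v => m v ^ M v) := by
    have h := Bk2_pow (s := fun _ => 1) hm hM hB (DFun.const 1) h2 hMK
      (fun v => by have := hK2 v; omega)
    simpa only [one_mul] using h
  have hp2 : ∀ v, 2 ≤ m v ^ M v := fun v =>
    (h2 v).trans (Nat.le_self_pow (by have := hM1 v; omega) _)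
  have hd := dfun_dg hp hc hi1 hp2
  have hps := Bk2_pow hm hM hB hs h2 hMK (K := K) fun v =>
    (dg_lt (by have := hK2 v; omega) (σ v) (i v - 1)).le
  have hmNd : DFun l (fun v => m v ^ N v) := dfun_powLe hm hN hB hmN
  have he : DFun l (fun v => eb (m v) (N v) (M v) (dg (K v) (σ v) (i v - 1))
      (dg (m v ^ M v) (c v) (i v - 1))) :=
    DFun.modPos (hd.mul hps) hmNd fun v => pow_pos (by have := h2 v; omega) _
  exact DFun.ite (Delta0.eqFun hi (DFun.const 0)) hx (DFun.app hT he hτ)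

theorem WW_def {n : ℕ} {m N M K B x σ j : (Fin n → ℕ) → ℕ} {T : ℕ → (Fin n → ℕ) → ℕ}
    (hm : DFun n m) (hN : DFun n N) (hM : DFun n M) (hK : DFun n K) (hB : DFun n B)
    (hx : DFun n x) (hσ : DFun n σ) (hj : DFun n j)
    (hT : DFun (n + 1) (fun w => T (w 0) (fun i => w i.succ))) (h2 : ∀ v, 2 ≤ m v)
    (hK2 : ∀ v, 2 ≤ K v) (hM1 : ∀ v, 1 ≤ M v) (hMK : ∀ v, m v ^ (M v * K v) ≤ B v)
    (hmN : ∀ v, m v ^ N v ≤ B v) (hjK : ∀ v, j v ≤ K v)
    (hTb : ∀ v z, z < m v ^ N v → T z v < m v ^ N v) (hxb : ∀ v, x v < m v ^ N v) :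
    DFun n (fun v => WW (m v) (N v) (M v) (K v) (fun z => T z v) (σ v) (x v) (j v)) := by
  have hm0 : ∀ v, 0 < m v := fun v => by have := h2 v; omega
  have hp : DFun n (fun v => m v ^ M v) := by
    have h := Bk2_pow (s := fun _ => 1) hm hM hB (DFun.const 1) h2 hMK
      (fun v => by have := hK2 v; omega)
    simpa only [one_mul] using h
  have hp2 : ∀ v, 2 ≤ m v ^ M v := fun v =>
    (h2 v).trans (Nat.le_self_pow (by have := hM1 v; omega) _)
  refine DFun.ofGraph hB (fun v => (WW_lt' (h2 v) (hTb v) (hxb v) _ _).le.trans (hmN v)) ?_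
  -- variables `(i, c, y, v)`
  have hi3 : DFun (n + 1 + 1 + 1) (fun w => w 0) := DFun.proj 0
  have hc3 : DFun (n + 1 + 1 + 1) (fun w => w (Fin.succ 0)) := DFun.proj _
  have hn3 := Bk2_nxt (l := n + 1 + 1 + 1) hT (τ := fun k w => w k.succ.succ.succ)
    (fun k => DFun.proj _) hm.weak.weak.weak hN.weak.weak.weak hM.weak.weak.weak
    hK.weak.weak.weak hB.weak.weak.weak hx.weak.weak.weak hσ.weak.weak.weak hc3 hi3
    (fun w => h2 _) (fun w => hK2 _) (fun w => hM1 _) (fun w => hMK _) (fun w => hmN _)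
  have hs3 := dfun_dg hK.weak.weak.weak hσ.weak.weak.weak hi3 fun w => hK2 _
  have hps3 := Bk2_pow (K := fun w => K fun i => w i.succ.succ.succ) hm.weak.weak.weak
    hM.weak.weak.weak hB.weak.weak.weak hs3 (fun w => h2 _) (fun w => hMK _) fun w =>
      (dg_lt (m := K fun i => w i.succ.succ.succ) (lt_of_lt_of_le (by norm_num) (hK2 _)) _ _).le
  have hrb : DFun (n + 1 + 1 + 1) (fun w => rb (m fun i => w i.succ.succ.succ)
      (M fun i => w i.succ.succ.succ) (dg (K fun i => w i.succ.succ.succ)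
      (σ fun i => w i.succ.succ.succ) (w 0)) (nxt (m fun i => w i.succ.succ.succ)
      (N fun i => w i.succ.succ.succ) (M fun i => w i.succ.succ.succ)
      (K fun i => w i.succ.succ.succ) (fun z => T z fun i => w i.succ.succ.succ)
      (σ fun i => w i.succ.succ.succ) (x fun i => w i.succ.succ.succ) (w (Fin.succ 0)) (w 0))) :=
    DFun.modPos (DFun.divPos hn3 hps3 fun w => pow_pos (hm0 _) _) hp.weak.weak.weak
      fun w => pow_pos (hm0 _) _
  have hdg3 := dfun_dg hp.weak.weak.weak hc3 hi3 fun w => hp2 _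
  have q1 := (Delta0.ltFun hi3 hj.weak.weak.weak).imp (Delta0.eqFun hdg3 hrb)
  have q2 := Delta0.ballFun (n := n + 1 + 1) (b := fun w => j fun i => w i.succ.succ)
    hj.weak.weak
    (P := fun i w => i < (j fun i => w i.succ.succ) →
      dg (m (fun i => w i.succ.succ) ^ M (fun i => w i.succ.succ)) (w 0) i =
      rb (m fun i => w i.succ.succ) (M fun i => w i.succ.succ) (dg (K fun i => w i.succ.succ)
      (σ fun i => w i.succ.succ) i) (nxt (m fun i => w i.succ.succ)
      (N fun i => w i.succ.succ) (M fun i => w i.succ.succ)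
      (K fun i => w i.succ.succ) (fun z => T z fun i => w i.succ.succ)
      (σ fun i => w i.succ.succ) (x fun i => w i.succ.succ) (w 0) i)) q1
  have hn2 := Bk2_nxt (l := n + 1 + 1) hT (τ := fun k w => w k.succ.succ)
    (fun k => DFun.proj _) hm.weak.weak hN.weak.weak hM.weak.weak
    hK.weak.weak hB.weak.weak hx.weak.weak hσ.weak.weak (c := fun w => w 0) (DFun.proj 0)
    hj.weak.weak (fun w => h2 _) (fun w => hK2 _) (fun w => hM1 _) (fun w => hMK _)
    (fun w => hmN _)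
  have q3 := q2.and (Delta0.eqFun (DFun.proj (n := n + 1 + 1) (Fin.succ 0)) hn2)
  have q4 := Delta0.bexFun (n := n + 1) (b := fun w => B fun i => w i.succ) hB.weak
    (P := fun c w => (∀ i, i ≤ (j fun i => w i.succ) → i < (j fun i => w i.succ) →
      dg (m (fun i => w i.succ) ^ M (fun i => w i.succ)) c i =
      rb (m fun i => w i.succ) (M fun i => w i.succ) (dg (K fun i => w i.succ)
      (σ fun i => w i.succ) i) (nxt (m fun i => w i.succ)
      (N fun i => w i.succ) (M fun i => w i.succ)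
      (K fun i => w i.succ) (fun z => T z fun i => w i.succ)
      (σ fun i => w i.succ) (x fun i => w i.succ) c i)) ∧
      w 0 = nxt (m fun i => w i.succ) (N fun i => w i.succ) (M fun i => w i.succ)
      (K fun i => w i.succ) (fun z => T z fun i => w i.succ)
      (σ fun i => w i.succ) (x fun i => w i.succ) c (j fun i => w i.succ)) q3
  refine q4.of_iff fun w => ?_
  set v : Fin n → ℕ := fun i => w i.succ with hv
  constructor
  · intro h
    obtain ⟨c, hc, hch⟩ := exists_chain (N := N v) (M := M v) (K := K v)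
      (T := fun z => T z v) (h2 v) (σ v) (x v) (j v)
    have hcB : c ≤ B v := by
      refine hc.le.trans (le_trans ?_ (hMK v))
      rw [← pow_mul]
      exact Nat.pow_le_pow_right (hm0 v) (Nat.mul_le_mul_left _ (hjK v))
    refine ⟨c, hcB, fun i _ hi => hch i hi, ?_⟩
    rw [h, nxt_eq hch (j v) le_rfl]
  · rintro ⟨c, _, hch, h⟩
    rw [h, nxt_eq (fun i hi => hch i hi.le hi) (j v) le_rfl]

end Pool.Agent.H49Bk
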