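import Pool.Agent.H49Bk.Bk1
import Pool.Agent.H49Bk.Bk2

/-!
# Package Bk3: the block lemma

`M = N / K + 1`, `N ≤ K * M`, `M * K ≤ N + K`. The digit `i < N` of `T^[j] x` is the sum over
`σ < K ^ j ≤ K ^ K ≤ (lg B + 1) ^ c` of the digits `i` of `WW σ x j` modulo `m` (`dg_iter`,
`WW_def` with `σ` as an additional variable, `dfun_sumPoly`, `dfun_powLe` for `K ^ j`); then
`dfun_code`. ∎
-/

set_option autoImplicit false

namespace Pool.Agent.H49Bk

open Finset Pool.Agent.Grz Pool.Agent.GAvg Pool.Agent.PTr Pool.Agent.MTr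
open Pool.Agent.LPC Pool.Agent.ECD Pool.Agent.LinU

private theorem Bk3_comp {n k : ℕ} {g : ℕ → (Fin n → ℕ) → ℕ}
    (hg : DFun (n + 1) (fun w => g (w 0) (fun i => w i.succ))) {a : (Fin k → ℕ) → ℕ}
    {s : Fin n → (Fin k → ℕ) → ℕ} (ha : DFun k a) (hs : ∀ i, DFun k (s i)) :
    DFun k (fun u => g (a u) (fun i => s i u)) := by
  have h := hg.comp (n := k) (h := Fin.cons a s) (fun i => by
    refine Fin.cases ?_ (fun j => ?_) i
    · exact ha
    · exact hs j)
  exact h

private theorem Bk3_NM {N K : ℕ} (hK : 2 ≤ K) : N ≤ K * (N / K + 1) ∧ (N / K + 1) * K ≤ N + K := by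
  have h1 := Nat.div_add_mod N K
  have h2 := Nat.mod_lt N (show 0 < K by omega)
  constructor
  · rw [Nat.mul_add]
    omega
  · rw [Nat.add_mul, Nat.mul_comm]
    omega

theorem iter_block (c : ℕ) {n : ℕ} {m N K B x j : (Fin n → ℕ) → ℕ} {T : ℕ → (Fin n → ℕ) → ℕ}
    (hm : DFun n m) (hN : DFun n N) (hK : DFun n K) (hB : DFun n B) (hx : DFun n x)
    (hj : DFun n j) (hT : DFun (n + 1) (fun w => T (w 0) (fun i => w i.succ)))
    (h2 : ∀ v, 2 ≤ m v) (hK2 : ∀ v, 2 ≤ K v) (hNK : ∀ v, m v ^ (N v + K v) ≤ B v)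
    (hKK : ∀ v, K v ^ K v ≤ (lg (B v) + 1) ^ c) (hjK : ∀ v, j v ≤ K v)
    (hTb : ∀ v z, z < m v ^ N v → T z v < m v ^ N v)
    (hlin : ∀ v, ∃ A : Module.End (ZMod (m v)) (Fin (N v) → ZMod (m v)), ∀ z, z < m v ^ N v →
      vecOf (m v) (N v) (T z v) = A (vecOf (m v) (N v) z))
    (hxb : ∀ v, x v < m v ^ N v) : DFun n (fun v => (fun z => T z v)^[j v] (x v)) := by
  have hM : DFun n (fun v => N v / K v + 1) :=
    (DFun.divPos hN hK (fun v => le_trans (by norm_num) (hK2 v))).add (DFun.const 1)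
  have hpos : ∀ v, 1 ≤ m v := fun v => le_trans (by norm_num) (h2 v)
  have hmN : ∀ v, m v ^ N v ≤ B v := fun v =>
    (Nat.pow_le_pow_right (hpos v) (Nat.le_add_right _ _)).trans (hNK v)
  have hMK : ∀ v, m v ^ ((N v / K v + 1) * K v) ≤ B v := fun v =>
    (Nat.pow_le_pow_right (hpos v) (Bk3_NM (hK2 v)).2).trans (hNK v)
  -- the number of the block sequences
  have hKj : ∀ v, K v ^ j v ≤ (lg (B v) + 1) ^ c := fun v =>
    (Nat.pow_le_pow_right (le_trans (by norm_num) (hK2 v)) (hjK v)).trans (hKK v)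
  have hC : DFun n (fun v => (lg (B v) + 1) ^ c) :=
    DFun.powConst ((DFun.lg hB).add (DFun.const 1)) c
  have hS : DFun n (fun v => K v ^ j v) := dfun_powLe hK hj hC hKj
  -- one block sequence
  have hW : DFun (n + 1 + 1) (fun w => WW (m (fun i => w i.succ.succ)) (N (fun i => w i.succ.succ))
      (N (fun i => w i.succ.succ) / K (fun i => w i.succ.succ) + 1) (K (fun i => w i.succ.succ))
      (fun z => T z (fun i => w i.succ.succ)) (w 0) (x (fun i => w i.succ.succ))
      (j (fun i => w i.succ.succ))) := by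
    refine WW_def (n := n + 1 + 1) (m := fun w => m (fun i => w i.succ.succ))
      (N := fun w => N (fun i => w i.succ.succ))
      (M := fun w => N (fun i => w i.succ.succ) / K (fun i => w i.succ.succ) + 1)
      (K := fun w => K (fun i => w i.succ.succ)) (B := fun w => B (fun i => w i.succ.succ))
      (x := fun w => x (fun i => w i.succ.succ)) (σ := fun w => w 0)
      (j := fun w => j (fun i => w i.succ.succ))
      (T := fun z w => T z (fun i => w i.succ.succ))
      hm.weak.weak hN.weak.weak hM.weak.weak hK.weak.weak hB.weak.weak hx.weak.weak (DFun.proj 0)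
      hj.weak.weak ?_ (fun w => h2 _) (fun w => hK2 _) (fun w => Nat.le_add_left _ _)
      (fun w => hMK _) (fun w => hmN _) (fun w => hjK _) (fun w => hTb _) (fun w => hxb _)
    exact Bk3_comp hT (k := n + 1 + 1 + 1) (s := fun i u => u i.succ.succ.succ) (DFun.proj 0)
      (fun i => DFun.proj i.succ.succ.succ)
  have hd : DFun (n + 1 + 1) (fun w => dg (m (fun i => w i.succ.succ))
      (WW (m (fun i => w i.succ.succ)) (N (fun i => w i.succ.succ))
      (N (fun i => w i.succ.succ) / K (fun i => w i.succ.succ) + 1) (K (fun i => w i.succ.succ))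
      (fun z => T z (fun i => w i.succ.succ)) (w 0) (x (fun i => w i.succ.succ))
      (j (fun i => w i.succ.succ))) (w 1)) :=
    dfun_dg hm.weak.weak hW (DFun.proj 1) (fun w => h2 _)
  have hsum := dfun_sumPoly (n := n + 1) c (S := fun u => K (fun i => u i.succ) ^
      j (fun i => u i.succ)) (N := fun u => B (fun i => u i.succ))
    (g := fun σ u => dg (m (fun i => u i.succ))
      (WW (m (fun i => u i.succ)) (N (fun i => u i.succ))
      (N (fun i => u i.succ) / K (fun i => u i.succ) + 1) (K (fun i => u i.succ))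
      (fun z => T z (fun i => u i.succ)) σ (x (fun i => u i.succ))
      (j (fun i => u i.succ))) (u 0)) hd hS.weak hB.weak (fun u => hKj _)
  have hcode := dfun_code (m := m) (d := N) (B := B)
    (g := fun i v => (∑ σ ∈ range (K v ^ j v), dg (m v)
      (WW (m v) (N v) (N v / K v + 1) (K v) (fun z => T z v) σ (x v) (j v)) i) % m v)
    hm hN hB (DFun.modAny hsum hm.weak) h2 hmN
  refine dfun_congr hcode fun v => ?_
  have hb : (fun z => T z v)^[j v] (x v) < m v ^ N v := by
    have h : ∀ l, (fun z => T z v)^[l] (x v) < m v ^ N v := by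
      intro l
      induction l with
      | zero => exact hxb v
      | succ l ih =>
        rw [Function.iterate_succ_apply']
        exact hTb v _ ih
    exact h _
  obtain ⟨A, hA⟩ := hlin v
  refine (code_dg hb).symm.trans (sum_congr rfl fun i hi => ?_)
  rw [dg_iter (T := fun z => T z v) (h2 v) (le_trans (by norm_num) (hK2 v)) (Bk3_NM (hK2 v)).1
    (hTb v) hA (hxb v) (j v) (mem_range.1 hi)]

end Pool.Agent.H49Bk
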