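import Pool.Agent.LinU.PD

/-!
# Iterates of linear maps by blocks: definitions
-/

set_option autoImplicit false

namespace Pool.Agent.H49Bk

open Finset Pool.Agent.LinU

/-- the digits of the block `s` (length `M`) of `z`, moved to the bottom -/
def rb (m M s z : ℕ) : ℕ := z / m ^ (s * M) % m ^ M

/-- the block `b` moved to the place `s`, cut off at `N` digits -/
def eb (m N M s b : ℕ) : ℕ := b * m ^ (s * M) % m ^ N

/-- `A P_(σ_(j-1)) ... A P_(σ_0) u`, `σ_i = dg K σ i`, `P_s` the projection to the block `s` -/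
def WW (m N M K : ℕ) (T : ℕ → ℕ) (σ u : ℕ) : ℕ → ℕ
  | 0 => u
  | j + 1 => T (eb m N M (dg K σ j) (rb m M (dg K σ j) (WW m N M K T σ u j)))

end Pool.Agent.H49Bk
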