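import Pool.Agent.LinU.P9
import Pool.Agent.H63PR.Main

/-!
# Recurrences with one factor and with two factors
-/

set_option autoImplicit false

namespace Pool.Agent.H49Bk

open Finset Pool.Agent.Grz Pool.Agent.LinU

/-- Linear recurrences: one explicit function in `DFun 4`. -/
theorem lin_rec (m : ℕ) (hm : 2 ≤ m) (s : (Fin 4 → ℕ) → ℕ → ℕ)
    (hs0 : ∀ v i, i < Nat.log m (v 2) → s v i = dg m (v 1) i)
    (hs : ∀ v i, s v (i + Nat.log m (v 2)) =
      (∑ j ∈ range (Nat.log m (v 2)), dg m (v 0) j * s v (i + j)) % m) :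
    DFun 4 (fun v => s v (v 3)) :=
  rec_term (m := fun _ => m) (k := fun v => Nat.log m (v 2)) (c := fun v => v 0)
    (z := fun v => v 1) (t := fun v => v 3) (B := fun v => v 2 + 1) (s := s) (DFun.const m)
    (Pool.Agent.H63PR.logm_def hm (DFun.proj 2)) (DFun.proj 0) (DFun.proj 1) (DFun.proj 3)
    ((DFun.proj 2).add (DFun.const 1)) (fun _ => hm)
    (fun v => Nat.pow_log_le_add_one m (v 2)) (fun v i hi => hs0 v i hi) (fun v i => hs v i)

/-- Products of two linear forms: one explicit function, as hard as `Delta0 = E2Star`. -/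
theorem prod_rec (m : ℕ) (hm : 2 ≤ m) (s : (Fin 5 → ℕ) → ℕ → ℕ)
    (hs0 : ∀ v i, i < Nat.log m (v 3) → s v i = dg m (v 2) i)
    (hs : ∀ v i, s v (i + Nat.log m (v 3)) =
      (∑ j ∈ range (Nat.log m (v 3)), dg m (v 0) j * s v (i + j)) *
        (∑ j ∈ range (Nat.log m (v 3)), dg m (v 1) j * s v (i + j)) % m) :
    (∀ (n : ℕ) (R : (Fin n → ℕ) → Prop), Delta0 n R ↔ E2Star n R) ↔
      DFun 5 (fun v => s v (v 4)) := by
  have h : (fun v : Fin 5 → ℕ => s v (v 4)) = fun v =>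
      Pool.Agent.H63PR.seq m (Nat.log m (v 3)) (v 0) (v 1) (v 2) (v 4) := by
    funext v
    exact Pool.Agent.H63PR.seq_unique (hs0 v) (hs v) (v 4)
  rw [h]
  exact Pool.Agent.H63PR.seq_iff hm

end Pool.Agent.H49Bk
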