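import Pool.Agent.LinK.K5
import Pool.Agent.H69Fu.All

/-!
# The full regime: iterates, reachability and the number of reachable points for commuting maps
-/

set_option autoImplicit false

namespace Pool.Agent.H49Bk

open Finset Pool.Agent.Grz Pool.Agent.GAvg Pool.Agent.PTr Pool.Agent.MTr
open Pool.Agent.LPC Pool.Agent.ECD Pool.Agent.LinU

theorem goodIter_true : GoodIter (fun _ _ _ _ => True) := by
  intro n m N B x t T hm hN hB hx ht hT hm0 hmN hTb haff hxb
  refine Pool.Agent.H69Fu.full_aff_pos hm hN hB hx ht hT hm0 hmN hTb (fun v => ?_) hxb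
  obtain ⟨A, b, _, h⟩ := haff v
  exact ⟨A, b, h⟩

/-- **Commuting affine maps in unbounded dimension.** -/
theorem aff_full (k n : ℕ) (m N B x y t : (Fin n → ℕ) → ℕ) (T : Fin k → ℕ → (Fin n → ℕ) → ℕ)
    (R : (Fin (n + 1) → ℕ) → Prop) (A : ∀ v, Fin k → Matrix (Fin (N v)) (Fin (N v)) (ZMod (m v)))
    (c : ∀ v, Fin k → Fin (N v) → ZMod (m v)) (hm : DFun n m) (hN : DFun n N) (hB : DFun n B)
    (hx : DFun n x) (hy : DFun n y) (ht : DFun n t)
    (hT : ∀ j, DFun (n + 1) (fun w => T j (w 0) fun i => w i.succ)) (hR : Delta0 (n + 1) R)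
    (hm0 : ∀ v, 0 < m v) (hmN : ∀ v, m v ^ N v ≤ B v) (hxb : ∀ v, x v < m v ^ N v)
    (hTb : ∀ v j z, z < m v ^ N v → T j z v < m v ^ N v)
    (haff : ∀ v j z, z < m v ^ N v →
      vecOf (m v) (N v) (T j z v) = (A v j).mulVec (vecOf (m v) (N v) z) + c v j) :
    (∀ j, DFun n (fun v => (fun z => T j z v)^[t v] (x v))) ∧
    ((∀ v j z z', z < m v ^ N v → z' < m v ^ N v → T j z v = T j z' v → z = z') →
      (∀ v i j, A v i * A v j = A v j * A v i) →
      Delta0 n (fun v => Relation.ReflTransGen (fun z z' => z' < m v ^ N v ∧ ∃ j, ∃ b,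
        b < m v ^ N v ∧ R (Fin.cons b v) ∧ vecOf (m v) (N v) z' =
          vecOf (m v) (N v) (T j z v) + vecOf (m v) (N v) b) (x v) (y v)) ∧
      DFun n (fun v => Nat.card {z // Relation.ReflTransGen (fun z z' => z' < m v ^ N v ∧
        ∃ j, ∃ b, b < m v ^ N v ∧ R (Fin.cons b v) ∧ vecOf (m v) (N v) z' =
          vecOf (m v) (N v) (T j z v) + vecOf (m v) (N v) b) (x v) z})) := by
  constructor
  · intro j
    exact Pool.Agent.H69Fu.full_aff_pos hm hN hB hx ht (hT j) hm0 hmN (fun v z hz => hTb v j z hz)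
      (fun v => ⟨A v j, c v j, fun z hz => haff v j z hz⟩) hxb
  · intro hinj hcomm
    exact Pool.Agent.LinK.comm_reach goodIter_true (fun _ _ _ => trivial) hm hN hB hx hy hT hR hm0
      hmN (fun j v z hz => hTb v j z hz)
      (fun v => ⟨A v, c v, hcomm v, fun j => ⟨trivial, fun z hz => haff v j z hz⟩⟩)
      (fun j v z z' hz hz' h => hinj v j z z' hz hz' h) hxb

end Pool.Agent.H49Bk
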